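import Mathlib

/-!
# An almost and weakly Scheepers space which is not weakly Scheepers in the sense of Kocinac

The example is a refinement of the topology of the compact square `K = [0,1]²`.  Let
`q₀, q₁, …` enumerate a countable dense subset of `[0,1]` and let `D n` be the set of all `(a, b)`
with `a` in that dense set but `a ∉ {q₀, …, q_{n-1}}`.  A set `G` is declared open if for every
`x ∈ G` there are a Euclidean open `U ∋ x`, a number `n` and a countable set `C` such that
`(U ∩ D n) \ C ⊆ G`.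

* All sets `D n \ C` are dense in `K`, so that the closure of a neighbourhood `{x} ∪ (U ∩ D n) \ C`
  contains `U`.  By compactness of `K` every open cover of the new space has a finite subfamily
  with dense union.  Hence the space is almost Scheepers and weakly Scheepers.
* The new topology refines the topology of `K`, so the space is Urysohn (even submetrizable).
* Selecting from the covers `{ {x} ∪ D n : x ∈ K }`, the points which are captured infinitely often
  form a countable set, and the complement of a countable set is open and nonempty.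
-/

namespace Pool.Agent.Results.MP_23a291_gt.UrysohnExample

open Set Filter Topology

/-- `U` is an open cover of `X`. -/
def IsOpenCover (X : Type*) [TopologicalSpace X] (U : Set (Set X)) : Prop :=
  (∀ u ∈ U, IsOpen u) ∧ ⋃₀ U = Set.univ

/-- `V` is a selection of finite subfamilies from the sequence `U`. -/
def IsSelection {X : Type*} (U V : ℕ → Set (Set X)) : Prop :=
  ∀ n, V n ⊆ U n ∧ (V n).Finite

/-- The almost Scheepers property (aS). -/
def AlmostScheepers (X : Type*) [TopologicalSpace X] : Prop :=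
  ∀ U : ℕ → Set (Set X), (∀ n, IsOpenCover X (U n)) →
    ∃ V : ℕ → Set (Set X), IsSelection U V ∧
      ∀ F : Set X, F.Finite → {n | F ⊆ closure (⋃₀ V n)}.Infinite

/-- The weak Scheepers property (wS). -/
def WeaklyScheepers (X : Type*) [TopologicalSpace X] : Prop :=
  ∀ U : ℕ → Set (Set X), (∀ n, IsOpenCover X (U n)) →
    ∃ V : ℕ → Set (Set X), IsSelection U V ∧
      ∀ 𝓕 : Set (Set X), 𝓕.Finite → (∀ u ∈ 𝓕, IsOpen u ∧ u.Nonempty) →
        {n | ∀ u ∈ 𝓕, (u ∩ ⋃₀ V n).Nonempty}.Infinite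

/-- The weak Scheepers property in the sense of Kocinac (wS_K). -/
def WeaklyScheepersK (X : Type*) [TopologicalSpace X] : Prop :=
  ∀ U : ℕ → Set (Set X), (∀ n, IsOpenCover X (U n)) →
    ∃ Y : Set X, Dense Y ∧ ∃ V : ℕ → Set (Set X), IsSelection U V ∧
      ∀ F : Set X, F ⊆ Y → F.Finite → {n | F ⊆ ⋃₀ V n}.Infinite

/-- The square, to be equipped with the refined topology. -/
structure Sp where
  /-- The underlying point of the square. -/
  pt : unitInterval × unitInterval

instance : Nonempty Sp := ⟨⟨(0, 0)⟩⟩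

/-- The dense sets `D n`. -/
def D (n : ℕ) : Set (unitInterval × unitInterval) :=
  {p | p.1 ∈ Set.range (TopologicalSpace.denseSeq unitInterval) ∧
    ∀ k < n, p.1 ≠ TopologicalSpace.denseSeq unitInterval k}

lemma D_anti {n m : ℕ} (h : n ≤ m) : D m ⊆ D n := fun _ hp =>
  ⟨hp.1, fun k hk => hp.2 k (hk.trans_le h)⟩

lemma exists_notMem_D (p : unitInterval × unitInterval) : ∃ n, ∀ m, n ≤ m → p ∉ D m := by
  by_cases h : p.1 ∈ Set.range (TopologicalSpace.denseSeq unitInterval)
  · obtain ⟨k, hk⟩ := h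
    exact ⟨k + 1, fun m hm hp => hp.2 k (by omega) hk.symm⟩
  · exact ⟨0, fun m _ hp => h hp.1⟩

/-- The complement of a countable subset of the interval is dense. -/
lemma dense_compl_countable {C : Set unitInterval} (hC : C.Countable) : Dense Cᶜ := by
  have h1 : Dense (⋂ c ∈ C, ({c}ᶜ : Set unitInterval)) :=
    dense_biInter_of_isOpen (fun c _ => isOpen_compl_singleton) hC
      (fun c _ => dense_compl_singleton c)
  have h2 : (⋂ c ∈ C, ({c}ᶜ : Set unitInterval)) = Cᶜ := by
    ext x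
    simp only [Set.mem_iInter, Set.mem_compl_iff, Set.mem_singleton_iff]
    constructor
    · intro h hx
      exact h x hx rfl
    · rintro h c hc rfl
      exact h hc
  rwa [h2] at h1

lemma dense_D (n : ℕ) {C : Set (unitInterval × unitInterval)} (hC : C.Countable) :
    Dense (D n \ C) := by
  rw [dense_iff_inter_open]
  intro U hU hne
  obtain ⟨⟨a, b⟩, hab⟩ := hne
  obtain ⟨A, B, hA, hB, ha, hb, hAB⟩ := isOpen_prod_iff.1 hU a b hab
  have h1 : Dense (Set.range (TopologicalSpace.denseSeq unitInterval) \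
      ((TopologicalSpace.denseSeq unitInterval) '' {k | k < n})) :=
    (TopologicalSpace.denseRange_denseSeq unitInterval).sdiff_finite
      ((Set.finite_lt_nat n).image _)
  obtain ⟨a', ha', ha'2, ha'3⟩ := h1.inter_open_nonempty A hA ⟨a, ha⟩
  have h2 : (Prod.snd '' C).Countable := hC.image _
  obtain ⟨b', hb', hb'2⟩ := (dense_compl_countable h2).inter_open_nonempty B hB ⟨b, hb⟩
  refine ⟨(a', b'), hAB ⟨ha', hb'⟩, ⟨ha'2, ?_⟩, ?_⟩
  · intro k hk heq
    exact ha'3 ⟨k, hk, heq.symm⟩
  · intro hmem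
    exact hb'2 ⟨_, hmem, rfl⟩

/-- The refined topology. -/
instance : TopologicalSpace Sp where
  IsOpen G := ∀ x ∈ G, ∃ U : Set (unitInterval × unitInterval), IsOpen U ∧ x.pt ∈ U ∧
    ∃ (n : ℕ) (C : Set (unitInterval × unitInterval)), C.Countable ∧
      ∀ y : Sp, y.pt ∈ U → y.pt ∈ D n → y.pt ∉ C → y ∈ G
  isOpen_univ := fun _ _ => ⟨Set.univ, isOpen_univ, trivial, 0, ∅, Set.countable_empty,
    fun _ _ _ _ => trivial⟩
  isOpen_inter := by
    intro G G' hG hG' x hx
    obtain ⟨U, hU, hxU, n, C, hC, h⟩ := hG x hx.1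
    obtain ⟨U', hU', hxU', n', C', hC', h'⟩ := hG' x hx.2
    refine ⟨U ∩ U', hU.inter hU', ⟨hxU, hxU'⟩, max n n', C ∪ C', hC.union hC', ?_⟩
    intro y hy hyD hyC
    exact ⟨h y hy.1 (D_anti (le_max_left _ _) hyD) fun hc => hyC (Or.inl hc),
      h' y hy.2 (D_anti (le_max_right _ _) hyD) fun hc => hyC (Or.inr hc)⟩
  isOpen_sUnion := by
    intro 𝓖 h𝓖 x hx
    obtain ⟨G, hG, hxG⟩ := hx
    obtain ⟨U, hU, hxU, n, C, hC, h⟩ := h𝓖 G hG x hxG
    exact ⟨U, hU, hxU, n, C, hC, fun y h1 h2 h3 => ⟨G, hG, h y h1 h2 h3⟩⟩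

lemma isOpen_iff {G : Set Sp} : IsOpen G ↔
    ∀ x ∈ G, ∃ U : Set (unitInterval × unitInterval), IsOpen U ∧ x.pt ∈ U ∧
    ∃ (n : ℕ) (C : Set (unitInterval × unitInterval)), C.Countable ∧
      ∀ y : Sp, y.pt ∈ U → y.pt ∈ D n → y.pt ∉ C → y ∈ G := Iff.rfl

lemma continuous_pt : Continuous Sp.pt := by
  refine continuous_def.2 fun U hU => ?_
  rw [isOpen_iff]
  intro x hx
  exact ⟨U, hU, hx, 0, ∅, Set.countable_empty, fun y hy _ _ => hy⟩

lemma injective_pt : Function.Injective Sp.pt := by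
  rintro ⟨x⟩ ⟨y⟩ h
  exact congrArg Sp.mk h

/-- The closure of an open set `G` contains every Euclidean open set witnessing openness. -/
lemma mem_closure_of_witness {G : Set Sp} {U : Set (unitInterval × unitInterval)} (hU : IsOpen U)
    {n : ℕ} {C : Set (unitInterval × unitInterval)} (hC : C.Countable)
    (h : ∀ y : Sp, y.pt ∈ U → y.pt ∈ D n → y.pt ∉ C → y ∈ G) {z : Sp} (hz : z.pt ∈ U) :
    z ∈ closure G := by
  rw [mem_closure_iff]
  intro G' hG' hzG'
  obtain ⟨U', hU', hzU', n', C', hC', h'⟩ := isOpen_iff.1 hG' z hzG'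
  obtain ⟨p, hp, hpD, hpC⟩ := (dense_D (max n n') (hC.union hC')).inter_open_nonempty (U ∩ U')
    (hU.inter hU') ⟨z.pt, hz, hzU'⟩
  refine ⟨⟨p⟩, h' ⟨p⟩ hp.2 (D_anti (le_max_right _ _) hpD) fun hc => hpC (Or.inr hc),
    h ⟨p⟩ hp.1 (D_anti (le_max_left _ _) hpD) fun hc => hpC (Or.inl hc)⟩

/-- Every open cover has a finite subfamily with dense union. -/
lemma exists_finite_dense {𝒰 : Set (Set Sp)} (h : IsOpenCover Sp 𝒰) :
    ∃ 𝒱 : Set (Set Sp), 𝒱 ⊆ 𝒰 ∧ 𝒱.Finite ∧ Dense (⋃₀ 𝒱) := by
  have h1 : ∀ x : unitInterval × unitInterval, ∃ G ∈ 𝒰, (⟨x⟩ : Sp) ∈ G := by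
    intro x
    have : (⟨x⟩ : Sp) ∈ ⋃₀ 𝒰 := by
      rw [h.2]
      trivial
    exact this
  choose G hG hxG using h1
  have h2 : ∀ x : unitInterval × unitInterval, ∃ U : Set (unitInterval × unitInterval),
      IsOpen U ∧ x ∈ U ∧ ∀ z : Sp, z.pt ∈ U → z ∈ closure (G x) := by
    intro x
    obtain ⟨U, hU, hxU, n, C, hC, h3⟩ := isOpen_iff.1 (h.1 _ (hG x)) ⟨x⟩ (hxG x)
    exact ⟨U, hU, hxU, fun z hz => mem_closure_of_witness hU hC h3 hz⟩
  choose U hU hxU hcl using h2
  obtain ⟨t, ht⟩ := (isCompact_univ (X := unitInterval × unitInterval)).elim_finite_subcover U hU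
    (fun x _ => Set.mem_iUnion.2 ⟨x, hxU x⟩)
  refine ⟨G '' (t : Set (unitInterval × unitInterval)), ?_, t.finite_toSet.image _, ?_⟩
  · rintro _ ⟨x, _, rfl⟩
    exact hG x
  · intro z
    obtain ⟨x, hx⟩ := Set.mem_iUnion.1 (ht (Set.mem_univ z.pt))
    obtain ⟨hxt, hzU⟩ := Set.mem_iUnion.1 hx
    have hmem : G x ∈ G '' (t : Set (unitInterval × unitInterval)) := ⟨x, hxt, rfl⟩
    exact closure_mono (Set.subset_sUnion_of_mem hmem) (hcl x z hzU)

lemma almostScheepers : AlmostScheepers Sp := by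
  intro U hU
  choose V hV1 hV2 hV3 using fun n => exists_finite_dense (hU n)
  refine ⟨V, fun n => ⟨hV1 n, hV2 n⟩, fun F _ => ?_⟩
  have : {n | F ⊆ closure (⋃₀ V n)} = Set.univ := by
    ext n
    simp only [Set.mem_ofPred_eq, Set.mem_univ, iff_true]
    intro x _
    exact hV3 n x
  rw [this]
  exact Set.infinite_univ

lemma weaklyScheepers : WeaklyScheepers Sp := by
  intro U hU
  choose V hV1 hV2 hV3 using fun n => exists_finite_dense (hU n)
  refine ⟨V, fun n => ⟨hV1 n, hV2 n⟩, fun 𝓕 _ h𝓕 => ?_⟩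
  have : {n | ∀ u ∈ 𝓕, (u ∩ ⋃₀ V n).Nonempty} = Set.univ := by
    ext n
    simp only [Set.mem_ofPred_eq, Set.mem_univ, iff_true]
    intro u hu
    exact (hV3 n).inter_open_nonempty u (h𝓕 u hu).1 (h𝓕 u hu).2
  rw [this]
  exact Set.infinite_univ

/-- The test covers. -/
def testCover (n : ℕ) : Set (Set Sp) :=
  {G | ∃ x : Sp, G = {y | y = x ∨ y.pt ∈ D n}}

lemma testCover_isOpenCover (n : ℕ) : IsOpenCover Sp (testCover n) := by
  constructor
  · rintro _ ⟨x, rfl⟩
    rw [isOpen_iff]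
    intro y _
    exact ⟨Set.univ, isOpen_univ, trivial, n, ∅, Set.countable_empty, fun z _ hz _ => Or.inr hz⟩
  · rw [Set.eq_univ_iff_forall]
    intro x
    exact ⟨_, ⟨x, rfl⟩, Or.inl rfl⟩

lemma not_weaklyScheepersK : ¬ WeaklyScheepersK Sp := by
  intro h
  obtain ⟨Y, hY, V, hV, hcap⟩ := h testCover testCover_isOpenCover
  -- the finitely many extra points selected at stage `n`
  have h1 : ∀ n, ∃ F : Set Sp, F.Finite ∧ ∀ y ∈ ⋃₀ V n, y ∈ F ∨ y.pt ∈ D n := by
    intro n
    have h2 : ∀ G : Set Sp, G ∈ V n → ∃ x : Sp, G = {y | y = x ∨ y.pt ∈ D n} := fun G hG =>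
      (hV n).1 hG
    classical
    choose! g hg using h2
    refine ⟨g '' V n, (hV n).2.image g, ?_⟩
    rintro y ⟨G, hG, hyG⟩
    rw [hg G hG] at hyG
    rcases hyG with h3 | h3
    · left
      exact ⟨G, hG, h3.symm⟩
    · right
      exact h3
  choose F hF hcov using h1
  set C : Set (unitInterval × unitInterval) := Sp.pt '' ⋃ n, F n with hC
  have hCc : C.Countable := (Set.countable_iUnion fun n => (hF n).countable).image _
  have hYC : ∀ y ∈ Y, y.pt ∈ C := by
    intro y hy
    obtain ⟨k, hk⟩ := exists_notMem_D y.pt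
    obtain ⟨n, hn, hkn⟩ := (hcap {y} (Set.singleton_subset_iff.2 hy)
      (Set.finite_singleton y)).exists_gt k
    have h3 : y ∈ ⋃₀ V n := hn rfl
    rcases hcov n y h3 with h4 | h4
    · exact ⟨y, Set.mem_iUnion.2 ⟨n, h4⟩, rfl⟩
    · exact absurd h4 (hk n hkn.le)
  have hopen : IsOpen {y : Sp | y.pt ∉ C} := by
    rw [isOpen_iff]
    intro x _
    exact ⟨Set.univ, isOpen_univ, trivial, 0, C, hCc, fun y _ _ h3 => h3⟩
  obtain ⟨p, _, _, hpC⟩ := (dense_D 0 hCc).inter_open_nonempty Set.univ isOpen_univ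
    Set.univ_nonempty
  obtain ⟨y, hy, hyY⟩ := hY.inter_open_nonempty _ hopen ⟨⟨p⟩, hpC⟩
  exact hy (hYC y hyY)

instance : T25Space Sp := T25Space.of_injective_continuous injective_pt continuous_pt

/-- **Positive answer to Q1.**  There is a space which is almost Scheepers and weakly Scheepers
but not weakly Scheepers in the sense of Kocinac; it can be chosen to be Urysohn and even to admit
a continuous injection into the plane. -/
theorem result : ∃ (X : Type) (_ : TopologicalSpace X), T25Space X ∧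
    (∃ f : X → ℝ × ℝ, Continuous f ∧ Function.Injective f) ∧
    AlmostScheepers X ∧ WeaklyScheepers X ∧ ¬ WeaklyScheepersK X := by
  refine ⟨Sp, inferInstance, inferInstance, ⟨fun x => (x.pt.1, x.pt.2), ?_, ?_⟩,
    almostScheepers, weaklyScheepers, not_weaklyScheepersK⟩
  · exact (continuous_subtype_val.comp (continuous_fst.comp continuous_pt)).prodMk
      (continuous_subtype_val.comp (continuous_snd.comp continuous_pt))
  · intro x y h
    have h1 := congrArg Prod.fst h
    have h2 := congrArg Prod.snd h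
    exact injective_pt (Prod.ext (Subtype.ext h1) (Subtype.ext h2))

end Pool.Agent.Results.MP_23a291_gt.UrysohnExample
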